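import Pool.Agent.N299.DT.Stm2
import Pool.Agent.N682.DT.F4

/-!
Project DT (MP_fb67b4_an, helper299): the diagonal argument `S_DIAG`.
-/

set_option autoImplicit false

open scoped BoundedContinuousFunction Topology
open Filter

noncomputable section

namespace Pool.Agent.N475.DT

open Pool.Agent.N299 Pool.Agent.N299.DT Pool.Agent.N682.DT

variable {A Q : Type} [CStarAlgebra A] [CStarAlgebra Q] {ω : Ultrafilter ℕ}
  {q : (ℕ →ᵇ A) →⋆ₐ[ℂ] Q}

lemma qnorm_le (q : (ℕ →ᵇ A) →⋆ₐ[ℂ] Q) (w : ℕ →ᵇ A) : ‖q w‖ ≤ ‖w‖ :=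
  NonUnitalStarAlgHom.norm_apply_le (q : (ℕ →ᵇ A) →⋆ₙₐ[ℂ] Q) w

/-- lifts of the same norm -/
lemma lift_norm (h : IsUP A Q ω q) (c : Q) {r : ℝ} (hr : 0 ≤ r) (hc : ‖c‖ ≤ r) :
    ∃ x : ℕ →ᵇ A, q x = c ∧ ‖x‖ ≤ r := by
  rcases hr.eq_or_lt with h0 | h0
  · subst h0
    have : c = 0 := norm_le_zero_iff.1 hc
    exact ⟨0, by rw [map_zero, this], by simp⟩
  · have hne : ((r : ℝ) : ℂ) ≠ 0 := by
      rw [Complex.ofReal_ne_zero]
      exact h0.ne'
    obtain ⟨y, hy, hy1⟩ := lift_contractive h ((((r : ℝ) : ℂ)⁻¹) • c) (by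
      rw [norm_smul, norm_inv, Complex.norm_real, Real.norm_eq_abs, abs_of_pos h0]
      rw [inv_mul_le_iff₀ h0, mul_one]
      exact hc)
    refine ⟨((r : ℝ) : ℂ) • y, ?_, ?_⟩
    · rw [map_smul, hy, smul_smul, mul_inv_cancel₀ hne, one_smul]
    · rw [norm_smul, Complex.norm_real, Real.norm_eq_abs, abs_of_pos h0]
      nlinarith

lemma ev_le (h : IsUP A Q ω q) (w : ℕ →ᵇ A) {r ε : ℝ} (hε : 0 < ε)
    (hw : ‖q w‖ ≤ r) : ∀ᶠ n in (ω : Filter ℕ), ‖w n‖ ≤ r + ε := by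
  obtain ⟨v, hv, hv1⟩ := lift_norm h (q w) ((norm_nonneg _).trans hw) hw
  have h0 : q (w - v) = 0 := by rw [map_sub, hv, sub_self]
  have h1 := (h.ker _).1 h0
  have h2 : ∀ᶠ k in (ω : Filter ℕ), ‖(w - v) k‖ < ε := h1.eventually_lt_const hε
  filter_upwards [h2] with k hk
  have h3 : w k = v k + (w - v) k := by
    rw [BoundedContinuousFunction.sub_apply]
    abel
  rw [h3]
  refine (norm_add_le _ _).trans ?_
  have h4 := (v.norm_coe_le_norm k).trans hv1
  linarith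

lemma q_le (h : IsUP A Q ω q) (hω : (ω : Filter ℕ) ≤ atTop) (w : ℕ →ᵇ A) {r : ℝ} (hr : 0 ≤ r)
    (hw : ∀ᶠ k in (atTop : Filter ℕ), ‖w k‖ ≤ r + 1 / ((k : ℝ) + 1)) : ‖q w‖ ≤ r := by
  refine le_of_forall_pos_le_add fun ε hε => ?_
  have h1 : ∀ᶠ k : ℕ in atTop, 1 / ((k : ℝ) + 1) < ε :=
    tendsto_one_div_add_atTop_nhds_zero_nat.eventually_lt_const hε
  have h2 : ∀ᶠ k in (atTop : Filter ℕ), ‖w k‖ ≤ r + ε := by
    filter_upwards [h1, hw] with k h1 h2
    linarith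
  obtain ⟨K, hK⟩ := eventually_atTop.1 h2
  have hb : ∀ k, ‖(if K ≤ k then w k else 0)‖ ≤ r + ε := by
    intro k
    split_ifs with hk
    · exact hK k hk
    · rw [norm_zero]
      linarith
  let w' : ℕ →ᵇ A := BoundedContinuousFunction.ofNormedAddCommGroupDiscrete
    (fun k => if K ≤ k then w k else 0) (r + ε) hb
  have h3 : q (w - w') = 0 := by
    rw [h.ker]
    refine Tendsto.mono_left ?_ hω
    refine tendsto_const_nhds.congr' ?_
    filter_upwards [eventually_ge_atTop K] with k hk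
    have : (w - w') k = 0 := by
      rw [BoundedContinuousFunction.sub_apply]
      show w k - (if K ≤ k then w k else 0) = 0
      rw [if_pos hk, sub_self]
    rw [this, norm_zero]
  have h4 : q w = q w' := by
    rw [map_sub] at h3
    exact sub_eq_zero.1 h3
  rw [h4]
  refine (qnorm_le q w').trans ?_
  exact (BoundedContinuousFunction.norm_le (by linarith)).2 hb

theorem t_DIAG : S_DIAG := by
  intro A Q _ _ _ ω q hup hω Z _ _ D hD hdense hσ
  -- a dense sequence in the union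
  have : SecondCountableTopology Z := UniformSpace.secondCountable_of_separable Z
  have hne : Nonempty (↥(⋃ k, (D k : Set Z))) :=
    ⟨⟨0, Set.mem_iUnion.2 ⟨0, (D 0).zero_mem⟩⟩⟩
  obtain ⟨x', hx'⟩ := TopologicalSpace.exists_dense_seq (↥(⋃ k, (D k : Set Z)))
  let x : ℕ → Z := fun i => (x' i : Z)
  have hxd : ∀ i, ∃ d, x i ∈ D d := fun i => Set.mem_iUnion.1 (x' i).2
  choose d hd using hxd
  have hxdense : DenseRange x := by
    have h1 : DenseRange (Subtype.val : ↥(⋃ k, (D k : Set Z)) → Z) := by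
      rw [DenseRange, Subtype.range_coe]
      exact hdense
    exact h1.comp hx' continuous_subtype_val
  have : Nonempty A := ⟨0⟩
  obtain ⟨a, ha⟩ := TopologicalSpace.exists_dense_seq A
  obtain ⟨c, hc⟩ := TopologicalSpace.exists_dense_seq ℂ
  choose σ hσc hσn using hσ
  -- lifts
  have hs : ∀ k i, ∃ s : ℕ →ᵇ A, (∀ h : x i ∈ D k, q s = σ k ⟨x i, h⟩) ∧ ‖s‖ ≤ ‖x i‖ := by
    intro k i
    by_cases h : x i ∈ D k
    · obtain ⟨s, hs, hs1⟩ := lift_norm hup (σ k ⟨x i, h⟩) (norm_nonneg (x i))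
        (hσn k ⟨x i, h⟩)
      exact ⟨s, fun _ => hs, hs1⟩
    · exact ⟨0, fun h' => absurd h' h, by rw [norm_zero]; exact norm_nonneg _⟩
  choose s hsq hsn using hs
  -- conditions
  have hpos : ∀ k : ℕ, (0 : ℝ) < 1 / ((k : ℝ) + 1) := fun k => by positivity
  have C1 : ∀ k i j l, x i ∈ D k → x j ∈ D k → x l ∈ D k → ∀ᶠ n in (ω : Filter ℕ),
      ‖s k i n + s k j n - s k l n‖ ≤ ‖x i + x j - x l‖ + 1 / ((k : ℝ) + 1) := by
    intro k i j l hi hj hl
    refine ev_le hup (s k i + s k j - s k l) (hpos k) ?_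
    rw [map_sub, map_add, hsq k i hi, hsq k j hj, hsq k l hl, ← map_add, ← map_sub]
    exact hσn k _
  have C2 : ∀ k i j l, x i ∈ D k → x j ∈ D k → x l ∈ D k → ∀ᶠ n in (ω : Filter ℕ),
      ‖s k i n * s k j n - s k l n‖ ≤ ‖x i * x j - x l‖ + 1 / ((k : ℝ) + 1) := by
    intro k i j l hi hj hl
    refine ev_le hup (s k i * s k j - s k l) (hpos k) ?_
    rw [map_sub, map_mul, hsq k i hi, hsq k j hj, hsq k l hl, ← map_mul, ← map_sub]
    exact hσn k _
  have C3 : ∀ k i l m, x i ∈ D k → x l ∈ D k → ∀ᶠ n in (ω : Filter ℕ),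
      ‖c m • s k i n - s k l n‖ ≤ ‖c m • x i - x l‖ + 1 / ((k : ℝ) + 1) := by
    intro k i l m hi hl
    refine ev_le hup (c m • s k i - s k l) (hpos k) ?_
    rw [map_sub, map_smul, hsq k i hi, hsq k l hl, ← map_smul, ← map_sub]
    exact hσn k _
  have C4 : ∀ k i l, x i ∈ D k → x l ∈ D k → ∀ᶠ n in (ω : Filter ℕ),
      ‖star (s k i n) - s k l n‖ ≤ ‖star (x i) - x l‖ + 1 / ((k : ℝ) + 1) := by
    intro k i l hi hl
    refine ev_le hup (star (s k i) - s k l) (hpos k) ?_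
    rw [map_sub, map_star, hsq k i hi, hsq k l hl, ← map_star, ← map_sub]
    exact hσn k _
  have C5 : ∀ k i, x i ∈ D k → ∀ᶠ n in (ω : Filter ℕ),
      ‖s k i n - 1‖ ≤ ‖x i - 1‖ + 1 / ((k : ℝ) + 1) := by
    intro k i hi
    refine ev_le hup (s k i - 1) (hpos k) ?_
    rw [map_sub, map_one, hsq k i hi, ← map_one (σ k), ← map_sub]
    exact hσn k _
  have C6 : ∀ k i j, x i ∈ D k → x j ∈ D k → ∀ᶠ n in (ω : Filter ℕ),
      ‖s k i n - s k j n‖ ≤ ‖x i - x j‖ + 1 / ((k : ℝ) + 1) := by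
    intro k i j hi hj
    refine ev_le hup (s k i - s k j) (hpos k) ?_
    rw [map_sub, hsq k i hi, hsq k j hj, ← map_sub]
    exact hσn k _
  have C7 : ∀ k i m, x i ∈ D k → ∀ᶠ n in (ω : Filter ℕ),
      ‖s k i n * a m - a m * s k i n‖ ≤ 0 + 1 / ((k : ℝ) + 1) := by
    intro k i m hi
    refine ev_le hup (s k i * cst (a m) - cst (a m) * s k i) (hpos k) ?_
    rw [map_sub, map_mul, map_mul, hsq k i hi, cen_comm (hσc k _), sub_self, norm_zero]
  -- choice of the diagonal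
  have hn : ∀ k : ℕ, ∃ n : ℕ, ∀ i ∈ Finset.range k, ∀ j ∈ Finset.range k,
      ∀ l ∈ Finset.range k, ∀ m ∈ Finset.range k,
      x i ∈ D k → x j ∈ D k → x l ∈ D k →
      ‖s k i n + s k j n - s k l n‖ ≤ ‖x i + x j - x l‖ + 1 / ((k : ℝ) + 1) ∧
      ‖s k i n * s k j n - s k l n‖ ≤ ‖x i * x j - x l‖ + 1 / ((k : ℝ) + 1) ∧
      ‖c m • s k i n - s k l n‖ ≤ ‖c m • x i - x l‖ + 1 / ((k : ℝ) + 1) ∧
      ‖star (s k i n) - s k l n‖ ≤ ‖star (x i) - x l‖ + 1 / ((k : ℝ) + 1) ∧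
      ‖s k i n - 1‖ ≤ ‖x i - 1‖ + 1 / ((k : ℝ) + 1) ∧
      ‖s k i n - s k j n‖ ≤ ‖x i - x j‖ + 1 / ((k : ℝ) + 1) ∧
      ‖s k i n * a m - a m * s k i n‖ ≤ 0 + 1 / ((k : ℝ) + 1) := by
    intro k
    have : ∀ᶠ n in (ω : Filter ℕ), ∀ i ∈ Finset.range k, ∀ j ∈ Finset.range k,
      ∀ l ∈ Finset.range k, ∀ m ∈ Finset.range k,
      x i ∈ D k → x j ∈ D k → x l ∈ D k →
      ‖s k i n + s k j n - s k l n‖ ≤ ‖x i + x j - x l‖ + 1 / ((k : ℝ) + 1) ∧
      ‖s k i n * s k j n - s k l n‖ ≤ ‖x i * x j - x l‖ + 1 / ((k : ℝ) + 1) ∧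
      ‖c m • s k i n - s k l n‖ ≤ ‖c m • x i - x l‖ + 1 / ((k : ℝ) + 1) ∧
      ‖star (s k i n) - s k l n‖ ≤ ‖star (x i) - x l‖ + 1 / ((k : ℝ) + 1) ∧
      ‖s k i n - 1‖ ≤ ‖x i - 1‖ + 1 / ((k : ℝ) + 1) ∧
      ‖s k i n - s k j n‖ ≤ ‖x i - x j‖ + 1 / ((k : ℝ) + 1) ∧
      ‖s k i n * a m - a m * s k i n‖ ≤ 0 + 1 / ((k : ℝ) + 1) := by
      refine (eventually_all_finset _).2 fun i _ => (eventually_all_finset _).2 fun j _ =>
        (eventually_all_finset _).2 fun l _ => (eventually_all_finset _).2 fun m _ => ?_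
      by_cases hi : x i ∈ D k
      · by_cases hj : x j ∈ D k
        · by_cases hl : x l ∈ D k
          · filter_upwards [C1 k i j l hi hj hl, C2 k i j l hi hj hl, C3 k i l m hi hl,
              C4 k i l hi hl, C5 k i hi, C6 k i j hi hj, C7 k i m hi] with n h1 h2 h3 h4 h5 h6 h7
            exact fun _ _ _ => ⟨h1, h2, h3, h4, h5, h6, h7⟩
          · exact Eventually.of_forall fun n _ _ h => absurd h hl
        · exact Eventually.of_forall fun n _ h => absurd h hj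
      · exact Eventually.of_forall fun n h => absurd h hi
    exact this.exists
  choose n hn using hn
  let Y : ℕ → (ℕ →ᵇ A) := fun i => BoundedContinuousFunction.ofNormedAddCommGroupDiscrete
    (fun k => s k i (n k)) ‖x i‖ (fun k => ((s k i).norm_coe_le_norm _).trans (hsn k i))
  have hY : ∀ i k, Y i k = s k i (n k) := fun i k => rfl
  have hall : ∀ i j l m : ℕ, ∀ᶠ k in (atTop : Filter ℕ),
      ‖Y i k + Y j k - Y l k‖ ≤ ‖x i + x j - x l‖ + 1 / ((k : ℝ) + 1) ∧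
      ‖Y i k * Y j k - Y l k‖ ≤ ‖x i * x j - x l‖ + 1 / ((k : ℝ) + 1) ∧
      ‖c m • Y i k - Y l k‖ ≤ ‖c m • x i - x l‖ + 1 / ((k : ℝ) + 1) ∧
      ‖star (Y i k) - Y l k‖ ≤ ‖star (x i) - x l‖ + 1 / ((k : ℝ) + 1) ∧
      ‖Y i k - 1‖ ≤ ‖x i - 1‖ + 1 / ((k : ℝ) + 1) ∧
      ‖Y i k - Y j k‖ ≤ ‖x i - x j‖ + 1 / ((k : ℝ) + 1) ∧
      ‖Y i k * a m - a m * Y i k‖ ≤ 0 + 1 / ((k : ℝ) + 1) := by
    intro i j l m
    filter_upwards [eventually_gt_atTop i, eventually_gt_atTop j, eventually_gt_atTop l,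
      eventually_gt_atTop m, eventually_ge_atTop (d i), eventually_ge_atTop (d j),
      eventually_ge_atTop (d l)] with k h1 h2 h3 h4 h5 h6 h7
    exact hn k i (Finset.mem_range.2 h1) j (Finset.mem_range.2 h2) l (Finset.mem_range.2 h3) m
      (Finset.mem_range.2 h4) (hD h5 (hd i)) (hD h6 (hd j)) (hD h7 (hd l))
  let y : ℕ → Q := fun i => q (Y i)
  have E1 : ∀ i j l, ‖y i + y j - y l‖ ≤ ‖x i + x j - x l‖ := by
    intro i j l
    have := q_le hup hω (Y i + Y j - Y l) (norm_nonneg (x i + x j - x l))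
      ((hall i j l 0).mono fun k hk => hk.1)
    rwa [map_sub, map_add] at this
  have E2 : ∀ i j l, ‖y i * y j - y l‖ ≤ ‖x i * x j - x l‖ := by
    intro i j l
    have := q_le hup hω (Y i * Y j - Y l) (norm_nonneg (x i * x j - x l))
      ((hall i j l 0).mono fun k hk => hk.2.1)
    rwa [map_sub, map_mul] at this
  have E3 : ∀ i l m, ‖c m • y i - y l‖ ≤ ‖c m • x i - x l‖ := by
    intro i l m
    have := q_le hup hω (c m • Y i - Y l) (norm_nonneg (c m • x i - x l))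
      ((hall i 0 l m).mono fun k hk => hk.2.2.1)
    rwa [map_sub, map_smul] at this
  have E4 : ∀ i l, ‖star (y i) - y l‖ ≤ ‖star (x i) - x l‖ := by
    intro i l
    have := q_le hup hω (star (Y i) - Y l) (norm_nonneg (star (x i) - x l))
      ((hall i 0 l 0).mono fun k hk => hk.2.2.2.1)
    rwa [map_sub, map_star] at this
  have E5 : ∀ i, ‖y i - 1‖ ≤ ‖x i - 1‖ := by
    intro i
    have := q_le hup hω (Y i - 1) (norm_nonneg (x i - 1))
      ((hall i 0 0 0).mono fun k hk => hk.2.2.2.2.1)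
    rwa [map_sub, map_one] at this
  have E6 : ∀ i j, ‖y i - y j‖ ≤ ‖x i - x j‖ := by
    intro i j
    have := q_le hup hω (Y i - Y j) (norm_nonneg (x i - x j))
      ((hall i j 0 0).mono fun k hk => hk.2.2.2.2.2.1)
    rwa [map_sub] at this
  have E7 : ∀ i m, ‖y i * q (cst (a m)) - q (cst (a m)) * y i‖ ≤ 0 := by
    intro i m
    have := q_le hup hω (Y i * cst (a m) - cst (a m) * Y i) le_rfl
      ((hall i 0 0 m).mono fun k hk => hk.2.2.2.2.2.2)
    rwa [map_sub, map_mul, map_mul] at this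
  -- extension
  have hext : ∀ z : Z, ∃ (t : Q) (u : ℕ → ℕ), Tendsto (fun n => x (u n)) atTop (𝓝 z) ∧
      Tendsto (fun n => y (u n)) atTop (𝓝 t) := by
    intro z
    obtain ⟨v, hv, hvz⟩ := mem_closure_iff_seq_limit.1 (hxdense z)
    choose u hu using hv
    have hxu : (fun n => x (u n)) = v := funext hu
    have h1 : Tendsto (fun n => x (u n)) atTop (𝓝 z) := by rw [hxu]; exact hvz
    have h2 : CauchySeq (fun n => y (u n)) := by
      have h3 := h1.cauchySeq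
      rw [Metric.cauchySeq_iff] at h3 ⊢
      intro ε hε
      obtain ⟨N, hN⟩ := h3 ε hε
      refine ⟨N, fun m hm n hn => ?_⟩
      have := hN m hm n hn
      rw [dist_eq_norm] at this ⊢
      exact (E6 _ _).trans_lt this
    obtain ⟨t, ht⟩ := cauchySeq_tendsto_of_complete h2
    exact ⟨t, u, h1, ht⟩
  choose θ u hux huy using hext
  have hsc : ∀ w : ℂ, ∃ v : ℕ → ℕ, Tendsto (fun n => c (v n)) atTop (𝓝 w) := by
    intro w
    obtain ⟨v, hv, hvz⟩ := mem_closure_iff_seq_limit.1 (hc w)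
    choose u hu using hv
    exact ⟨u, by rw [show (fun n => c (u n)) = v from funext hu]; exact hvz⟩
  have hsa : ∀ b : A, ∃ v : ℕ → ℕ, Tendsto (fun n => a (v n)) atTop (𝓝 b) := by
    intro w
    obtain ⟨v, hv, hvz⟩ := mem_closure_iff_seq_limit.1 (ha w)
    choose u hu using hv
    exact ⟨u, by rw [show (fun n => a (u n)) = v from funext hu]; exact hvz⟩
  have T1 : ∀ z w, θ (z + w) = θ z + θ w := by
    intro z w
    have h1 := le_of_tendsto_of_tendsto' (((huy z).add (huy w)).sub (huy (z + w))).norm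
      (((hux z).add (hux w)).sub (hux (z + w))).norm (fun n => E1 _ _ _)
    rw [sub_self, norm_zero] at h1
    exact (sub_eq_zero.1 (norm_le_zero_iff.1 h1)).symm
  have T2 : ∀ z w, θ (z * w) = θ z * θ w := by
    intro z w
    have h1 := le_of_tendsto_of_tendsto' (((huy z).mul (huy w)).sub (huy (z * w))).norm
      (((hux z).mul (hux w)).sub (hux (z * w))).norm (fun n => E2 _ _ _)
    rw [sub_self, norm_zero] at h1
    exact (sub_eq_zero.1 (norm_le_zero_iff.1 h1)).symm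
  have T3 : ∀ (b : ℂ) z, θ (b • z) = b • θ z := by
    intro b z
    obtain ⟨v, hv⟩ := hsc b
    have h1 := le_of_tendsto_of_tendsto' ((hv.smul (huy z)).sub (huy (b • z))).norm
      ((hv.smul (hux z)).sub (hux (b • z))).norm (fun n => E3 _ _ _)
    rw [sub_self, norm_zero] at h1
    exact (sub_eq_zero.1 (norm_le_zero_iff.1 h1)).symm
  have T4 : ∀ z, θ (star z) = star (θ z) := by
    intro z
    have h1 := le_of_tendsto_of_tendsto' ((huy z).star.sub (huy (star z))).norm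
      ((hux z).star.sub (hux (star z))).norm (fun n => E4 _ _)
    rw [sub_self, norm_zero] at h1
    exact (sub_eq_zero.1 (norm_le_zero_iff.1 h1)).symm
  have T5 : θ 1 = 1 := by
    have h1 := le_of_tendsto_of_tendsto' ((huy 1).sub_const 1).norm
      ((hux 1).sub_const 1).norm (fun n => E5 _)
    rw [sub_self, norm_zero] at h1
    exact sub_eq_zero.1 (norm_le_zero_iff.1 h1)
  have T0 : θ 0 = 0 := by
    have := T3 0 0
    rwa [zero_smul, zero_smul] at this
  have hcst : Continuous fun b : A => q (cst b) := by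
    refine LipschitzWith.continuous (K := 1) (LipschitzWith.of_dist_le_mul fun b b' => ?_)
    rw [NNReal.coe_one, one_mul, dist_eq_norm, dist_eq_norm, ← map_sub]
    refine (qnorm_le q _).trans ?_
    exact (BoundedContinuousFunction.norm_le (norm_nonneg _)).2 fun n => le_rfl
  have T7 : ∀ z (b : A), θ z * q (cst b) = q (cst b) * θ z := by
    intro z b
    obtain ⟨v, hv⟩ := hsa b
    have h0 : Tendsto (fun n => q (cst (a (v n)))) atTop (𝓝 (q (cst b))) :=
      (hcst.tendsto b).comp hv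
    have h1 := le_of_tendsto' (((huy z).mul h0).sub (h0.mul (huy z))).norm (fun n => E7 _ _)
    exact sub_eq_zero.1 (norm_le_zero_iff.1 h1)
  refine ⟨{ toFun := θ, map_one' := T5, map_mul' := T2, map_zero' := T0, map_add' := T1,
            commutes' := fun r => ?_, map_star' := T4 }, fun z => ?_⟩
  · show θ (algebraMap ℂ Z r) = algebraMap ℂ Q r
    rw [Algebra.algebraMap_eq_smul_one, T3, T5, Algebra.algebraMap_eq_smul_one]
  · refine (StarSubalgebra.mem_centralizer_iff ℂ).2 ?_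
    rintro _ ⟨b, rfl⟩
    refine ⟨(T7 z b).symm, ?_⟩
    have h1 : star (q (cst b)) = q (cst (star b)) := by
      rw [← map_star]
      rfl
    show star (q (cst b)) * θ z = θ z * star (q (cst b))
    rw [h1]
    exact (T7 z (star b)).symm

end Pool.Agent.N475.DT
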